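import Pool.Agent.helper7.RC.Defs

/-!
# Bounded simple groups from virtually abelian subdirectly irreducible members
-/

namespace Pool.Agent.helper7.RC

open Pool.Agent.helper80.RSV Function
open scoped commutatorElement

/-- in a nonabelian simple group no nontrivial element commutes with all conjugates of
another nontrivial element -/
theorem simple_comm {S : Type*} [Group S] (hS : IsSimpleGroup S) (hn : ∃ x y : S, x * y ≠ y * x)
    {u w : S} (hu : u ≠ 1) (hw : w ≠ 1) : ∃ z : S, ⁅z * u * z⁻¹, w⁆ ≠ 1 := by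
  by_contra hcon
  push Not at hcon
  have hcl : Subgroup.normalClosure {u} = ⊤ := by
    rcases hS.eq_bot_or_eq_top_of_normal (Subgroup.normalClosure {u}) inferInstance with h | h
    · exact absurd (Subgroup.mem_bot.mp (h ▸ Subgroup.subset_normalClosure rfl)) hu
    · exact h
  have hcent : ∀ g : S, g * w = w * g := by
    intro g
    have hg : g ∈ Subgroup.normalClosure {u} := by rw [hcl]; trivial
    have hle : Subgroup.normalClosure {u} ≤ Subgroup.centralizer {w} := by
      rw [Subgroup.normalClosure, Subgroup.closure_le]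
      intro x hx
      rw [Group.mem_conjugatesOfSet_iff] at hx
      obtain ⟨y, hy, hyx⟩ := hx
      rw [Set.mem_singleton_iff] at hy
      subst hy
      obtain ⟨z, rfl⟩ := isConj_iff.mp hyx
      rw [SetLike.mem_coe, Subgroup.mem_centralizer_singleton_iff]
      exact (commutatorElement_eq_one_iff_mul_comm.mp (hcon z))
    exact (Subgroup.mem_centralizer_singleton_iff.mp (hle hg))
  have hz : w ∈ Subgroup.center S := Subgroup.mem_center_iff.mpr hcent
  rcases hS.eq_bot_or_eq_top_of_normal (Subgroup.center S) inferInstance with h | h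
  · exact hw (Subgroup.mem_bot.mp (h ▸ hz))
  · obtain ⟨x, y, hxy⟩ := hn
    have hx : y ∈ Subgroup.center S := by rw [h]; trivial
    exact hxy (Subgroup.mem_center_iff.mp hx x)

/-- nested commutators -/
theorem nested {S : Type*} [Group S] (hS : IsSimpleGroup S) (hn : ∃ x y : S, x * y ≠ y * x)
    (N : ℕ) : ∀ d : ℕ → S, (∀ i, i < N → d i ≠ 1) →
      ∃ ρ z : ℕ → S, ρ 0 ≠ 1 ∧ ∀ i, i < N → ρ i = ⁅z i * d i * (z i)⁻¹, ρ (i + 1)⁆ := by
  induction N with
  | zero =>
    intro d _
    obtain ⟨x, y, hxy⟩ := hn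
    refine ⟨fun _ => ⁅x, y⁆, fun _ => 1, ?_, fun i hi => absurd hi (Nat.not_lt_zero i)⟩
    exact fun h => hxy (commutatorElement_eq_one_iff_mul_comm.mp h)
  | succ N ih =>
    intro d hd
    obtain ⟨ρ, z, h0, hρ⟩ := ih (fun i => d (i + 1)) fun i hi => hd (i + 1) (Nat.succ_lt_succ hi)
    obtain ⟨z0, hz0⟩ := simple_comm hS hn (hd 0 (Nat.succ_pos N)) h0
    refine ⟨fun i => Nat.casesOn i ⁅z0 * d 0 * z0⁻¹, ρ 0⁆ ρ, fun i => Nat.casesOn i z0 z, hz0, ?_⟩
    rintro (_ | i) hi
    · rfl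
    · exact hρ i (Nat.lt_of_succ_lt_succ hi)

/-- if every subdirectly irreducible member is virtually abelian then the finite nonabelian simple
members have bounded order -/
theorem simple_bounded {W : Set (FreeGroup ℕ)}
    (h : ∀ (G : Type) [Group G], Sat W G → SubdirIrr G →
      ∃ N : Subgroup G, N.Normal ∧ N.FiniteIndex ∧ AbSub N) :
    ∃ B : ℕ, ∀ (S : Type) [Group S], Sat W S → Finite S → IsSimpleGroup S →
      (∃ x y : S, x * y ≠ y * x) → Nat.card S ≤ B := by
  by_contra hcon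
  push Not at hcon
  choose S hG hsat hfin hsimp hnab hcard using fun n : ℕ => hcon (2 * n + 3)
  let _ : ∀ n, Group (S n) := hG
  -- distinct elements in each coordinate
  have hx : ∀ n, ∃ x : ℕ → S n, ∀ i j, i < 2 * n + 3 → j < 2 * n + 3 → x i = x j → i = j := by
    intro n
    have := hfin n
    have h1 : Fintype.card (Fin (2 * n + 3)) ≤ Nat.card (S n) := by
      rw [Fintype.card_fin]; exact (hcard n).le
    have : Fintype (S n) := Fintype.ofFinite _
    rw [Nat.card_eq_fintype_card] at h1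
    obtain ⟨e⟩ := Function.Embedding.nonempty_of_card_le h1
    refine ⟨fun i => if hi : i < 2 * n + 3 then e ⟨i, hi⟩ else 1, fun i j hi hj hij => ?_⟩
    simp only [hi, hj, dif_pos] at hij
    have := e.injective hij
    exact congrArg Fin.val this
  choose x hx using hx
  -- differences
  let d : ℕ → ∀ n, S n := fun i n =>
    (x n (Nat.unpair i).1)⁻¹ * x n ((Nat.unpair i).1 + (Nat.unpair i).2 + 1)
  have hd : ∀ n i, i < n → d i n ≠ 1 := by
    intro n i hi h1
    have h2 : x n (Nat.unpair i).1 = x n ((Nat.unpair i).1 + (Nat.unpair i).2 + 1) :=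
      inv_mul_eq_one.mp h1
    have h3 := Nat.unpair_left_le i
    have h4 := Nat.unpair_right_le i
    have h5 := hx n _ _ (by omega) (by omega) h2
    omega
  choose ρ z hρ0 hρ using fun n => nested (hsimp n) (hnab n) n (fun i => d i n) (hd n)
  -- the product
  have hH : Sat W (∀ n, S n) := Sat.pi hsat
  let b : ∀ n, S n := fun n => ρ n 0
  have hb : b ∉ Ev S := by
    rintro ⟨m, hm⟩
    exact hρ0 m (hm m le_rfl)
  obtain ⟨M, hMn, hEvM, hbM, hMmax⟩ := exists_max_avoid (Ev_normal S) hb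
  have := hMn
  obtain ⟨N, hNn, hNf, hNab⟩ := h ((∀ n, S n) ⧸ M) (hH.quotient M) (subdirIrr_quotient hbM hMmax)
  have := hNn
  have := hNf
  let M1 : Subgroup (∀ n, S n) := N.comap (QuotientGroup.mk' M)
  have hM1n : M1.Normal := inferInstance
  have hM1f : M1.FiniteIndex := ⟨by
    rw [Subgroup.index_comap_of_surjective N (QuotientGroup.mk'_surjective M)]
    exact hNf.index_ne_zero⟩
  have hMM1 : M ≤ M1 := by
    intro y hy
    rw [Subgroup.mem_comap]
    have : (QuotientGroup.mk' M) y = 1 := (QuotientGroup.eq_one_iff y).mpr hy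
    rw [this]; exact N.one_mem
  have hcomm : ∀ u ∈ M1, ∀ v ∈ M1, ⁅u, v⁆ ∈ M := by
    intro u hu v hv
    rw [← QuotientGroup.eq_one_iff]
    have h1 : (QuotientGroup.mk' M) ⁅u, v⁆ = 1 := by
      rw [map_commutatorElement]
      exact commutatorElement_eq_one_iff_mul_comm.mpr (hNab _ hu _ hv)
    exact h1
  -- the relation modulo `Ev`
  let R : ℕ → ∀ n, S n := fun i n => ρ n i
  let Z : ℕ → ∀ n, S n := fun i n => z n i
  have hrel : ∀ i, R i * (⁅Z i * d i * (Z i)⁻¹, R (i + 1)⁆)⁻¹ ∈ M := by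
    intro i
    apply hEvM
    refine ⟨i + 1, fun n hn => ?_⟩
    have h1 := hρ n i (by omega)
    have h2 : (R i * (⁅Z i * d i * (Z i)⁻¹, R (i + 1)⁆)⁻¹) n =
      ρ n i * (⁅z n i * d i n * (z n i)⁻¹, ρ n (i + 1)⁆)⁻¹ := rfl
    rw [h2, ← h1, mul_inv_cancel]
  have hstep : ∀ (K : Subgroup (∀ n, S n)), K.Normal → M ≤ K → ∀ i,
      ⁅Z i * d i * (Z i)⁻¹, R (i + 1)⁆ ∈ K → R i ∈ K := by
    intro K _ hMK i hi
    have h1 := K.mul_mem (hMK (hrel i)) hi
    rwa [inv_mul_cancel_right] at h1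
  have hcommK : ∀ (K : Subgroup (∀ n, S n)), K.Normal → ∀ u v, (u ∈ K ∨ v ∈ K) → ⁅u, v⁆ ∈ K := by
    intro K hK u v huv
    rcases huv with hu | hv
    · have h1 : ⁅u, v⁆ = u * (v * u⁻¹ * v⁻¹) := by
        rw [commutatorElement_def]; group
      rw [h1]
      exact K.mul_mem hu (hK.conj_mem _ (K.inv_mem hu) v)
    · rw [commutatorElement_def]
      exact K.mul_mem (hK.conj_mem _ hv u) (K.inv_mem hv)
  have hdesc : ∀ (K : Subgroup (∀ n, S n)), K.Normal → M ≤ K → ∀ i, R i ∈ K → ∀ j, j ≤ i →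
      R j ∈ K := by
    intro K hK hMK i
    induction i with
    | zero =>
      intro hi j hj
      rw [Nat.le_zero.mp hj]; exact hi
    | succ i ih =>
      intro hi j hj
      rcases Nat.lt_or_ge i j with hlt | hge
      · have : j = i + 1 := by omega
        rw [this]; exact hi
      · exact ih (hstep K hK hMK i (hcommK K hK _ _ (Or.inr hi))) j hge
  -- pigeonhole
  have hkey : ∀ i i', i < i' → d i ∈ M1 → d i' ∈ M1 → False := by
    intro i i' hii hdi hdi'
    have h1 : R i' ∈ M1 :=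
      hstep M1 hM1n hMM1 i' (hcommK M1 hM1n _ _ (Or.inl (hM1n.conj_mem _ hdi' _)))
    have h2 : R (i + 1) ∈ M1 := hdesc M1 hM1n hMM1 i' h1 (i + 1) hii
    have h3 : R i ∈ M := hstep M hMn le_rfl i (hcomm _ (hM1n.conj_mem _ hdi _) _ h2)
    exact hbM (hdesc M hMn le_rfl i h3 0 (Nat.zero_le i))
  have : Finite ((∀ n, S n) ⧸ M1) := inferInstance
  obtain ⟨c, hc⟩ := Finite.exists_infinite_fiber
    (fun p : ℕ => ((fun n => x n p : ∀ n, S n) : (∀ n, S n) ⧸ M1))
  have hinf : ((fun p : ℕ => ((fun n => x n p : ∀ n, S n) : (∀ n, S n) ⧸ M1)) ⁻¹' {c}).Infinite :=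
    Set.infinite_coe_iff.mp hc
  obtain ⟨p, hp⟩ := hinf.nonempty
  obtain ⟨q, hq, hpq⟩ := hinf.exists_gt p
  obtain ⟨q', hq', hqq'⟩ := hinf.exists_gt q
  have hmem : ∀ s, p < s → ((fun n => x n s : ∀ n, S n) : (∀ n, S n) ⧸ M1) = c →
      d (Nat.pair p (s - p - 1)) ∈ M1 := by
    intro s hs hsc
    have h1 : ((fun n => x n p : ∀ n, S n) : (∀ n, S n) ⧸ M1) =
      ((fun n => x n s : ∀ n, S n) : (∀ n, S n) ⧸ M1) := hp.trans hsc.symm
    have h2 := QuotientGroup.eq.mp h1
    have h3 : d (Nat.pair p (s - p - 1)) =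
      (fun n => x n p : ∀ n, S n)⁻¹ * (fun n => x n s : ∀ n, S n) := by
      funext n
      have h4 : p + (s - p - 1) + 1 = s := by omega
      simp only [d, Nat.unpair_pair, h4]
      rfl
    rw [h3]; exact h2
  have hd1 := hmem q hpq hq
  have hd2 := hmem q' (hpq.trans hqq') hq'
  have hne : Nat.pair p (q - p - 1) ≠ Nat.pair p (q' - p - 1) := by
    intro hEq
    have := (Nat.pair_eq_pair.mp hEq).2
    omega
  rcases Nat.lt_or_gt_of_ne hne with hlt | hgt
  · exact hkey _ _ hlt hd1 hd2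
  · exact hkey _ _ hgt hd2 hd1

end Pool.Agent.helper7.RC
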